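import Mathlib

set_option autoImplicit false

/-!
# Real group algebras: inner product, adjoint, and the transfer of rapid decay bounds
-/

namespace Pool.Agent.H782Z

open MonoidAlgebra
open scoped Pointwise

section basic

variable {G : Type}

/-- the inner product -/
noncomputable def ip (f g : MonoidAlgebra ℝ G) : ℝ := f.coeff.sum fun x a => a * g.coeff x

lemma ip_eq_sum (f g : MonoidAlgebra ℝ G) (s : Finset G) (hs : f.coeff.support ⊆ s) :
    ip f g = ∑ x ∈ s, f.coeff x * g.coeff x :=
  Finsupp.sum_of_support_subset _ hs _ (by simp)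

lemma ip_self (f : MonoidAlgebra ℝ G) : ip f f = ∑ x ∈ f.coeff.support, f.coeff x ^ 2 := by
  rw [ip_eq_sum f f _ subset_rfl]
  exact Finset.sum_congr rfl fun x _ => by ring

lemma ip_self_nonneg (f : MonoidAlgebra ℝ G) : 0 ≤ ip f f := by
  rw [ip_self]; exact Finset.sum_nonneg fun x _ => sq_nonneg _

lemma ip_comm (f g : MonoidAlgebra ℝ G) : ip f g = ip g f := by
  classical
  rw [ip_eq_sum f g (f.coeff.support ∪ g.coeff.support) Finset.subset_union_left,
    ip_eq_sum g f (f.coeff.support ∪ g.coeff.support) Finset.subset_union_right]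
  exact Finset.sum_congr rfl fun x _ => mul_comm _ _

lemma ip_add_right (f g h : MonoidAlgebra ℝ G) : ip f (g + h) = ip f g + ip f h := by
  unfold ip
  simp only [coeff_add, Finsupp.add_apply, mul_add, Finsupp.sum_add]

lemma ip_add_left (f g h : MonoidAlgebra ℝ G) : ip (f + g) h = ip f h + ip g h := by
  rw [ip_comm, ip_add_right, ip_comm h, ip_comm h]

lemma ip_zero_left (g : MonoidAlgebra ℝ G) : ip 0 g = 0 := by simp [ip]

lemma ip_zero_right (g : MonoidAlgebra ℝ G) : ip g 0 = 0 := by rw [ip_comm, ip_zero_left]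

lemma ip_single_left (a : G) (r : ℝ) (g : MonoidAlgebra ℝ G) :
    ip (single a r) g = r * g.coeff a := by
  unfold ip
  rw [coeff_single, Finsupp.sum_single_index (by simp)]

lemma ip_cs (f g : MonoidAlgebra ℝ G) : ip f g ^ 2 ≤ ip f f * ip g g := by
  classical
  rw [ip_eq_sum f g (f.coeff.support ∪ g.coeff.support) Finset.subset_union_left,
    ip_eq_sum f f (f.coeff.support ∪ g.coeff.support) Finset.subset_union_left,
    ip_eq_sum g g (f.coeff.support ∪ g.coeff.support) Finset.subset_union_right]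
  have := Finset.sum_mul_sq_le_sq_mul_sq (f.coeff.support ∪ g.coeff.support) f.coeff g.coeff
  simpa only [sq] using this

lemma sum_sq_le_ip (f : MonoidAlgebra ℝ G) (s : Finset G) :
    ∑ x ∈ s, f.coeff x ^ 2 ≤ ip f f := by
  classical
  rw [ip_eq_sum f f (f.coeff.support ∪ s) Finset.subset_union_left]
  simp only [← sq]
  exact Finset.sum_le_sum_of_subset_of_nonneg Finset.subset_union_right
    fun x _ _ => sq_nonneg _

lemma ip_map {H : Type} (π : G → H) [DecidableEq H] (f g : MonoidAlgebra ℝ G) :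
    ip (mapDomain π f) (mapDomain π g) = f.coeff.sum fun a r => g.coeff.sum fun b s =>
      if π a = π b then r * s else 0 := by
  induction f using MonoidAlgebra.induction_linear with
  | zero => simp [ip_zero_left]
  | add x y hx hy =>
    rw [mapDomain_add, ip_add_left, hx, hy, coeff_add, Finsupp.sum_add_index']
    · intro a; simp
    · intro a r s
      rw [← Finsupp.sum_add]
      refine Finsupp.sum_congr fun b _ => ?_
      split_ifs <;> ring
  | single a r =>
    rw [mapDomain_single, ip_single_left, coeff_single, Finsupp.sum_single_index (by simp)]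
    induction g using MonoidAlgebra.induction_linear with
    | zero => simp
    | add x y hx hy =>
      rw [mapDomain_add, coeff_add, Finsupp.add_apply, mul_add, hx, hy, coeff_add,
        Finsupp.sum_add_index']
      · intro b; simp
      · intro b s t
        split_ifs <;> ring
    | single b s =>
      rw [mapDomain_single, coeff_single, coeff_single, Finsupp.sum_single_index (by simp),
        Finsupp.single_apply]
      by_cases h : π a = π b
      · simp [h]
      · simp [h, Ne.symm h]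

/-- the squared norm after pushing forward -/
noncomputable def nq {H : Type} (π : G → H) (f : MonoidAlgebra ℝ G) : ℝ :=
  ip (mapDomain π f) (mapDomain π f)

lemma nq_nonneg {H : Type} (π : G → H) (f : MonoidAlgebra ℝ G) : 0 ≤ nq π f := ip_self_nonneg _

lemma nq_congr {H H' : Type} (π : G → H) (π' : G → H') (f : MonoidAlgebra ℝ G)
    (h : ∀ a ∈ f.coeff.support, ∀ b ∈ f.coeff.support, π a = π b ↔ π' a = π' b) :
    nq π f = nq π' f := by
  classical
  unfold nq
  rw [ip_map, ip_map]
  refine Finsupp.sum_congr fun a ha => Finsupp.sum_congr fun b hb => ?_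
  simp only [h a ha b hb]

variable [Group G]

/-- the adjoint -/
noncomputable def st (f : MonoidAlgebra ℝ G) : MonoidAlgebra ℝ G := mapDomain (fun x => x⁻¹) f

lemma st_zero : st (0 : MonoidAlgebra ℝ G) = 0 := mapDomain_zero _

lemma st_add (f g : MonoidAlgebra ℝ G) : st (f + g) = st f + st g := mapDomain_add _ _ _

lemma st_single (a : G) (r : ℝ) : st (single a r) = single a⁻¹ r := mapDomain_single

lemma st_mul (f g : MonoidAlgebra ℝ G) : st (f * g) = st g * st f := by
  induction f using MonoidAlgebra.induction_linear with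
  | zero => simp [st_zero]
  | add x y hx hy => rw [add_mul, st_add, st_add, mul_add, hx, hy]
  | single a r =>
    induction g using MonoidAlgebra.induction_linear with
    | zero => simp [st_zero]
    | add x y hx hy => rw [mul_add, st_add, st_add, add_mul, hx, hy]
    | single b s => simp [st_single, single_mul_single, mul_comm]

lemma st_st (f : MonoidAlgebra ℝ G) : st (st f) = f := by
  induction f using MonoidAlgebra.induction_linear with
  | zero => simp [st_zero]
  | add x y hx hy => rw [st_add, st_add, hx, hy]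
  | single a r => simp [st_single]

lemma map_st {H : Type} [Group H] (π : G →* H) (f : MonoidAlgebra ℝ G) :
    mapDomain π (st f) = st (mapDomain π f) := by
  induction f using MonoidAlgebra.induction_linear with
  | zero => simp [st_zero]
  | add x y hx hy => rw [st_add, mapDomain_add, mapDomain_add, st_add, hx, hy]
  | single a r => simp [st_single]

lemma ip_adj (f g h : MonoidAlgebra ℝ G) : ip (f * g) h = ip g (st f * h) := by
  induction f using MonoidAlgebra.induction_linear with
  | zero => simp [st_zero, ip_zero_left, ip_zero_right]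
  | add x y hx hy => rw [add_mul, st_add, add_mul, ip_add_left, ip_add_right, hx, hy]
  | single a r =>
    induction g using MonoidAlgebra.induction_linear with
    | zero => simp [ip_zero_left]
    | add x y hx hy => rw [mul_add, ip_add_left, ip_add_left, hx, hy]
    | single b s =>
      rw [single_mul_single, ip_single_left, ip_single_left, st_single, coeff_single_mul_apply,
        inv_inv]
      ring

lemma ip_st (f : MonoidAlgebra ℝ G) : ip (st f) (st f) = ip f f := by
  classical
  have := nq_congr (fun x : G => x⁻¹) (fun x : G => x) f (fun a _ b _ => inv_inj)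
  unfold nq at this
  have e : mapDomain (fun x : G => x) f = f := by
    apply MonoidAlgebra.coeff_injective
    exact Finsupp.mapDomain_id
  rw [e] at this
  exact this

lemma nq_st {H : Type} [Group H] (π : G →* H) (f : MonoidAlgebra ℝ G) :
    nq π (st f) = nq π f := by
  unfold nq
  rw [map_st, ip_st]

lemma nq_one {H : Type} [Group H] (π : G →* H) : nq π (1 : MonoidAlgebra ℝ G) = 1 := by
  unfold nq
  rw [mapDomain_one, one_def, ip_single_left]
  simp

lemma nq_sq {H : Type} [Group H] (π : G →* H) (f g : MonoidAlgebra ℝ G) :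
    nq π (f * g) ^ 2 ≤ nq π (st f * f * g) * nq π g := by
  unfold nq
  rw [mapDomain_mul, ip_adj, mul_comm (ip _ _), mul_assoc, mapDomain_mul, mapDomain_mul, map_st]
  exact ip_cs _ _

lemma supp_st (T : Set G) (hT : T⁻¹ = T) (r : ℕ) (f : MonoidAlgebra ℝ G)
    (hf : (f.coeff.support : Set G) ⊆ T ^ r) : ((st f).coeff.support : Set G) ⊆ T ^ r := by
  classical
  intro x hx
  have h1 : x ∈ (Finsupp.mapDomain (fun x : G => x⁻¹) f.coeff).support := hx
  obtain ⟨y, hy, rfl⟩ := Finset.mem_image.1 (Finsupp.mapDomain_support h1)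
  have h2 : y⁻¹ ∈ (T ^ r)⁻¹ := Set.inv_mem_inv.2 (hf hy)
  rwa [← inv_pow, hT] at h2

lemma supp_mul (T : Set G) (r s : ℕ) (f g : MonoidAlgebra ℝ G)
    (hf : (f.coeff.support : Set G) ⊆ T ^ r) (hg : (g.coeff.support : Set G) ⊆ T ^ s) :
    ((f * g).coeff.support : Set G) ⊆ T ^ (r + s) := by
  classical
  intro x hx
  have h1 := support_coeff_mul_subset f g hx
  obtain ⟨a, ha, b, hb, rfl⟩ := Finset.mem_mul.1 h1
  rw [pow_add]
  exact Set.mul_mem_mul (hf ha) (hg hb)

end basic

variable {F : Type} [Group F]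

/-- A rapid decay bound for the image of `F` under `π`, at radius `r`. -/
def RDq {G : Type} [Group G] (T : Set F) (π : F →* G) (r : ℕ) (σ : ℝ) : Prop :=
  ∀ f φ : MonoidAlgebra ℝ F, (f.coeff.support : Set F) ⊆ T ^ r →
    nq π (f * φ) ≤ σ * nq π f * nq π φ

lemma RDq.mono {G : Type} [Group G] {T : Set F} {π : F →* G} {r : ℕ} {σ σ' : ℝ}
    (h : RDq T π r σ) (hσ : σ ≤ σ') : RDq T π r σ' := fun f φ hf =>
  (h f φ hf).trans (mul_le_mul_of_nonneg_right
    (mul_le_mul_of_nonneg_right hσ (nq_nonneg _ _)) (nq_nonneg _ _))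

/-- the sequence of self adjoint powers -/
noncomputable def sq2 (f : MonoidAlgebra ℝ F) : ℕ → MonoidAlgebra ℝ F
  | 0 => f
  | j + 1 => st (sq2 f j) * sq2 f j

lemma supp_sq2 (T : Set F) (hT : T⁻¹ = T) (r : ℕ) (f : MonoidAlgebra ℝ F)
    (hf : (f.coeff.support : Set F) ⊆ T ^ r) (j : ℕ) :
    ((sq2 f j).coeff.support : Set F) ⊆ T ^ (2 ^ j * r) := by
  induction j with
  | zero => simpa [sq2] using hf
  | succ j ih =>
    have := supp_mul T _ _ _ _ (supp_st T hT _ _ ih) ih
    have e : 2 ^ (j + 1) * r = 2 ^ j * r + 2 ^ j * r := by ring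
    rw [e]; exact this

lemma op_sq2 {G : Type} [Group G] (π : F →* G) (f : MonoidAlgebra ℝ F) (β : ℝ) (hβ : 0 ≤ β)
    (h1 : ∀ φ, nq π (f * φ) ≤ β * nq π φ) (h2 : ∀ φ, nq π (st f * φ) ≤ β * nq π φ) (j : ℕ) :
    (∀ φ, nq π (sq2 f j * φ) ≤ β ^ (2 ^ j) * nq π φ) ∧
    (∀ φ, nq π (st (sq2 f j) * φ) ≤ β ^ (2 ^ j) * nq π φ) := by
  induction j with
  | zero => simpa [sq2] using ⟨h1, h2⟩
  | succ j ih =>
    have key : ∀ φ, nq π (sq2 f (j + 1) * φ) ≤ β ^ (2 ^ (j + 1)) * nq π φ := by
      intro φ
      have e : β ^ (2 ^ (j + 1)) = β ^ (2 ^ j) * β ^ (2 ^ j) := by rw [← pow_add]; congr 1; ring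
      rw [sq2, mul_assoc, e, mul_assoc]
      exact (ih.2 _).trans (mul_le_mul_of_nonneg_left (ih.1 φ) (pow_nonneg hβ _))
    refine ⟨key, fun φ => ?_⟩
    have e : st (sq2 f (j + 1)) = sq2 f (j + 1) := by rw [sq2, st_mul, st_st]
    rw [e]; exact key φ

lemma pow_sq2 {G : Type} [Group G] (π : F →* G) (f φ : MonoidAlgebra ℝ F) (j : ℕ) :
    nq π (f * φ) ^ (2 ^ j) * nq π φ ≤ nq π (sq2 f j * φ) * nq π φ ^ (2 ^ j) := by
  induction j with
  | zero => simp [sq2]
  | succ j ih =>
    have h0 := nq_nonneg π φ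
    have h1 := nq_sq π (sq2 f j) φ
    have h2 := nq_nonneg π (f * φ)
    have h3 := nq_nonneg π (sq2 f j * φ)
    rcases h0.eq_or_lt with h | h
    · rw [← h]; simp
    · have e1 : nq π (f * φ) ^ (2 ^ (j + 1)) = (nq π (f * φ) ^ (2 ^ j)) ^ 2 := by
        rw [← pow_mul]; congr 1
      have e2 : nq π φ ^ (2 ^ (j + 1)) = (nq π φ ^ (2 ^ j)) ^ 2 := by
        rw [← pow_mul]; congr 1
      rw [e1, e2]
      have h4 : (nq π (f * φ) ^ (2 ^ j) * nq π φ) ^ 2 ≤
          (nq π (sq2 f j * φ) * nq π φ ^ (2 ^ j)) ^ 2 :=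
        pow_le_pow_left₀ (by positivity) ih 2
      have h5 : (nq π (sq2 f j * φ) * nq π φ ^ (2 ^ j)) ^ 2 ≤
          nq π (sq2 f (j + 1) * φ) * nq π φ * (nq π φ ^ (2 ^ j)) ^ 2 := by
        rw [mul_pow]
        exact mul_le_mul_of_nonneg_right h1 (by positivity)
      have h6 := h4.trans h5
      refine le_of_mul_le_mul_right ?_ h
      calc (nq π (f * φ) ^ (2 ^ j)) ^ 2 * nq π φ * nq π φ
          = (nq π (f * φ) ^ (2 ^ j) * nq π φ) ^ 2 := by ring
        _ ≤ _ := h6
        _ = _ := by ring

/-- Transfer of a rapid decay bound between two quotients which agree on a large ball. -/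
theorem transfer {G G' : Type} [Group G] [Group G'] (T : Set F) (hT : T⁻¹ = T) (h1 : (1 : F) ∈ T)
    (π : F →* G) (π' : F →* G') (r j m : ℕ) (σ τ t : ℝ) (hσ : 0 ≤ σ) (hτ : 0 ≤ τ) (ht : 0 ≤ t)
    (hm : 2 ^ j * r ≤ m)
    (hag : ∀ a ∈ T ^ m, ∀ b ∈ T ^ m, π a = π b ↔ π' a = π' b)
    (hG : RDq T π r σ) (hG' : RDq T π' m τ) (htt : τ ≤ t ^ (2 ^ j)) : RDq T π' r (t * σ) := by
  intro f φ hf
  have hsub : T ^ (2 ^ j * r) ⊆ T ^ m := Set.pow_subset_pow_right h1 hm
  have hsub0 : T ^ r ⊆ T ^ m := Set.pow_subset_pow_right h1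
    (le_trans (Nat.le_mul_of_pos_left r (by positivity)) hm)
  have hs := (supp_sq2 T hT r f hf j).trans hsub
  have e1 : nq π' f = nq π f :=
    (nq_congr π π' f fun a ha b hb => hag a (hsub0 (hf ha)) b (hsub0 (hf hb))).symm
  have e2 : nq π' (sq2 f j) = nq π (sq2 f j) :=
    (nq_congr π π' _ fun a ha b hb => hag a (hs ha) b (hs hb)).symm
  set β := σ * nq π f with hβ
  have hβ0 : 0 ≤ β := mul_nonneg hσ (nq_nonneg _ _)
  have o1 := (op_sq2 π f β hβ0 (fun φ => hG f φ hf) (fun φ => by
    have := hG (st f) φ (supp_st T hT r f hf)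
    rwa [nq_st] at this) j).1 1
  rw [mul_one, nq_one, mul_one] at o1
  have o2 := hG' (sq2 f j) φ hs
  have o3 := pow_sq2 π' f φ j
  have h0 := nq_nonneg π' φ
  have h2 := nq_nonneg π' (f * φ)
  rw [e1, mul_assoc t σ, ← hβ]
  rcases h0.eq_or_lt with h | h
  · have h3 := nq_sq π' f φ
    rw [← h] at h3 ⊢
    rw [mul_zero] at h3 ⊢
    nlinarith
  · have o4 : nq π' (sq2 f j * φ) ≤ t ^ (2 ^ j) * β ^ (2 ^ j) * nq π' φ := by
      refine o2.trans (mul_le_mul_of_nonneg_right ?_ h0)
      rw [e2]
      exact mul_le_mul htt o1 (nq_nonneg _ _) (pow_nonneg ht _)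
    have o5 : nq π' (f * φ) ^ (2 ^ j) ≤ (t * β * nq π' φ) ^ (2 ^ j) := by
      refine le_of_mul_le_mul_right ?_ h
      refine o3.trans ?_
      calc nq π' (sq2 f j * φ) * nq π' φ ^ (2 ^ j)
          ≤ t ^ (2 ^ j) * β ^ (2 ^ j) * nq π' φ * nq π' φ ^ (2 ^ j) :=
            mul_le_mul_of_nonneg_right o4 (by positivity)
        _ = _ := by rw [mul_pow, mul_pow]; ring
    exact le_of_pow_le_pow_left₀ (by positivity) (by positivity) o5

end Pool.Agent.H782Z
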