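import Pool.Agent.H782Z.Hyp
import Pool.Agent.H59Z.NA.Ttau
import Pool.Agent.H59Z.NA.Thyp
import Pool.Agent.H59Z.NA.Tcomm
import Pool.Agent.H59Z.NA.Tacyl
import Pool.Agent.H59Z.NA.Taxis
import Pool.Agent.H59Z.NA.Tlines
import Pool.Agent.H59Z.NA.Tbow
import Pool.Agent.H59Z.NA.Telec
import Pool.Agent.H59Z.NA.Twind
import Pool.Agent.H59Z.NA.Tquo
import Pool.Agent.H59Z.NA.Tstep
import Pool.Agent.H59Z.NA.Tlox
import Pool.Agent.H59Z.NA.Tcyc
import Pool.Agent.H59Z.NA.Tpos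
import Pool.Agent.H59Z.NA.Tell
import Pool.Agent.H59Z.NA.Ttri
import Pool.Agent.H59Z.NA.Tacylq
import Pool.Agent.H59Z.NA.Tloxq
import Pool.Agent.H59Z.NA.Tfp
import Pool.Agent.H59Z.NA.Tlfp
import Pool.Agent.H59Z.NA.Tmd

set_option autoImplicit false

/-!
# One Dehn filling, with control of the valence and of the injectivity radius
-/

namespace Pool.Agent.H782Z

open Pool.Agent.H59Z.NA

theorem s_acyl : S_acyl := thm_acyl thm_comm
theorem s_lines : S_lines := thm_lines thm_tau thm_hyp s_acyl (thm_axis thm_tau)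
theorem s_elec : S_elec := thm_elec thm_hyp thm_bow
theorem s_lox : S_lox := thm_lox thm_tau (thm_cyc thm_tau)
theorem s_md : S_md := thm_md thm_hyp thm_pos
theorem s_step : S_step := thm_step thm_tau s_acyl s_lox thm_pos
  (thm_ell thm_pos (thm_fp thm_pos) thm_lfp)
  (thm_tri thm_tau thm_pos (thm_fp thm_pos) thm_lfp s_md) (thm_acylq thm_pos s_md)
  (thm_loxq thm_tau thm_pos s_md)

open Tquo in
/-- The geometry of the quotient, with a description of its edges (the proof is the one of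
`thm_quo`). -/
theorem quo_adj (Q V I : Type) [Group Q] [MulAction Q V] [MulAction Q I] (X : GM V)
    (L : ℕ) (F : Fam Q V I X L) (E : GM V) (hV : Nonempty V) (hX : X.Inv Q) (hL : 1 ≤ L)
    (hE : F.IsEl E)
    (hI0 : F.Ind Q (MonoidHom.id Q) (fun i => Subgroup.zpowers (F.gen i ^ F.mu i))) :
    ∃ (W J : Type) (_ : MulAction (Q ⧸ F.K) W) (_ : MulAction (Q ⧸ F.K) J)
      (A : AG (Q ⧸ F.K) W J L) (φ : V → W), IsQuo F (QuotientGroup.mk' F.K) A φ ∧
      ∀ p q, A.Z.d (φ p) (φ q) ≤ 1 → ∃ k ∈ F.K, E.d p (k • q) ≤ 1 := by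
  have h := thm_hyp
  have hI := ind_of F hI0
  letI aV := actR F.K (S := V)
  letI aI := actR F.K (S := I)
  have sV : ∀ (g : Q) (u : OQ F.K V), QuotientGroup.mk' F.K g • u = g • u := fun _ _ => rfl
  have sI : ∀ (g : Q) (u : OQ F.K I), QuotientGroup.mk' F.K g • u = g • u := fun _ _ => rfl
  have su := QuotientGroup.mk'_surjective F.K
  refine ⟨OQ F.K V, OQ F.K I, aV, aI,
    { Z := ZQ hE
      Y := Yq F
      ang := angq F E
      hL := hL
      ne := hV.map (omk F.K)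
      inv := ?_
      four := (h _ (ZQ hE)).1 60 (ZQ_slim hE hL hI)
      Y_ne := Yq_ne
      Y_smul := ?_
      clique := Yq_clique hE
      ang_comm := angq_comm hL
      ang_tri := angq_tri hL
      ang_smul := ?_
      bgi := angq_bgi hE hL hI
      sep := angq_sep hE hL hI
      rot := ?_ }, omk F.K, ?_, ?_⟩
  · intro g u w
    obtain ⟨g, rfl⟩ := su g
    obtain ⟨p, rfl⟩ := omk_surj F.K u
    obtain ⟨q, rfl⟩ := omk_surj F.K w
    exact db_smul hE g p q
  · intro g l u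
    obtain ⟨g, rfl⟩ := su g
    exact Yq_smul g l u
  · intro g l u w
    obtain ⟨g, rfl⟩ := su g
    exact angq_smul hE hL g l u w
  · intro g l hl hg
    obtain ⟨g, rfl⟩ := su g
    obtain ⟨j, hj⟩ := angq_rot hE hL g l hl hg
    refine ⟨j, fun u => ?_⟩
    rw [← map_pow]
    exact hj u
  · have hker : ∀ k : Q, QuotientGroup.mk' F.K k = 1 ↔ k ∈ F.K := fun k =>
      QuotientGroup.eq_one_iff k
    refine
      { surj := su
        φ_surj := omk_surj F.K
        φ_smul := fun _ _ => rfl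
        φ_eq := ?_
        scale := ?_
        rel := fun i => (hker _).2 (rel_mem_K F i)
        stab := ?_
        fixgen := ?_
        kerstab := ?_
        lift := fun Θ p w h1 h2 => lift' hX hE hL Θ p w h1 h2
        inj := fun k p hk h1 => inj' F hI k p ((hker k).1 hk) h1 }
    · intro p q e
      obtain ⟨k, hk, e⟩ := (omk_eq F.K).1 e
      exact ⟨k, (hker k).2 hk, e⟩
    · intro m p q h1
      exact (db_le' F E p q).trans (scale' hE m p q h1)
    · intro l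
      obtain ⟨i, rfl⟩ := omk_surj F.K l
      refine ⟨i, fun g => ?_⟩
      obtain ⟨g, rfl⟩ := su g
      exact stab_iff i g
    · intro i
      exact ⟨omk F.K i, (stab_iff i (F.gen i)).2 (Subgroup.mem_zpowers _)⟩
    · intro i g hg h1
      obtain ⟨y, hy⟩ := F.Y_ne i
      exact kerstab' F hI hL i y hy g ((hker g).1 h1) (Y_fix F ((F.stab g i).2 hg) hy)
  · intro p q h1
    obtain ⟨k, hk, e⟩ := db_ex F E p q
    refine ⟨k, hk, ?_⟩
    rw [e]; exact h1

section resc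

variable {Q V I : Type} [Group Q] [MulAction Q V] [MulAction Q I] {X : GM V} {L : ℕ}

/-- The same lines at a larger scale, with another exponent. -/
def resc (F : Fam Q V I X L) (L' k : ℕ) (hL : L ≤ L')
    (hb : ∀ i, (10 ^ 9 : ℝ) * L' ≤ k * F.tr i) : Fam Q V I X L' where
  Y := F.Y
  c := F.c
  gen := F.gen
  tr := F.tr
  mu := fun _ => k
  Y_ne := F.Y_ne
  Y_smul := F.Y_smul
  c_smul := F.c_smul
  gen_smul := F.gen_smul
  tr_smul := F.tr_smul
  mu_smul := fun _ _ => rfl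
  stab := F.stab
  c_gen := F.c_gen
  tr_pos := F.tr_pos
  big := hb
  conv := fun i p hp q hq z hz => by
    obtain ⟨y, hy, h⟩ := F.conv i p hp q hq z hz
    exact ⟨y, hy, h.trans hL⟩
  lip := fun i p q => by
    have h1 : (L : ℝ) ≤ L' := by exact_mod_cast hL
    linarith [F.lip i p q]
  sep := fun i j hij p hp q hq => by
    have h1 : (L : ℝ) ≤ L' := by exact_mod_cast hL
    linarith [F.sep i j hij p hp q hq]
  near := fun i p hp q hq => by
    have h1 : (L : ℝ) ≤ L' := by exact_mod_cast hL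
    linarith [F.near i p hp q hq]
  proj := fun i x y h => by
    have h1 : (L : ℝ) ≤ L' := by exact_mod_cast hL
    obtain ⟨a, ha, b, hb, h2, h3, h4⟩ := F.proj i x y (by linarith)
    exact ⟨a, ha, b, hb, by omega, by linarith, by linarith⟩

lemma ind_self (F : Fam Q V I X L) (E : GM V) (hX : X.Inv Q) (hL : 1 ≤ L) (hE : F.IsEl E) :
    F.Ind Q (MonoidHom.id Q) (fun i => Subgroup.zpowers (F.gen i ^ F.mu i)) :=
  thm_wind Q V I X _ F E hX hL hE Q (MonoidHom.id Q)
    (fun i => Subgroup.zpowers (F.gen i ^ F.mu i))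
    (by
      intro g i x hx
      obtain ⟨k, rfl⟩ := Subgroup.mem_zpowers_iff.1 hx
      refine Subgroup.mem_zpowers_iff.2 ⟨k, ?_⟩
      simp only [MonoidHom.id_apply, F.gen_smul, F.mu_smul, conj_pow, conj_zpow])
    (fun _ _ hx => hx) (fun _ _ _ hx => hx)

/-- injectivity radius -/
lemma inj_rad (F : Fam Q V I X L) (hX : X.Inv Q) (h4 : X.Four 122) (hL : 244 ≤ L) (k : Q)
    (hk : k ∈ F.K) (p : V) (h : X.d p (k • p) ≤ L) : k = 1 := by
  obtain ⟨E, hE⟩ := s_elec Q V I X 122 L F hX h4 (by omega) (by omega)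
  have hI := Tquo.ind_of F (ind_self F E hX (by omega) hE)
  refine Tquo.inj' F hI k p hk fun i => ?_
  have h1 := F.lip i p (k • p)
  have h2 : (X.d p (k • p) : ℝ) ≤ L := by exact_mod_cast h
  have h3 : (244 : ℝ) ≤ L := by exact_mod_cast hL
  linarith

lemma tr_le_tau (F : Fam Q V I X L) (hX : X.Inv Q) (i : I) : F.tr i ≤ X.tau (F.gen i) := by
  obtain ⟨p, -⟩ := F.Y_ne i
  refine (thm_tau Q V X hX).2.2.2.2.2.1 (F.gen i) p _ L fun m => ?_
  have h1 := F.lip i p (F.gen i ^ m • p)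
  have h2 := Tquo.c_zpow F i m p
  rw [zpow_natCast] at h2
  rw [h2] at h1
  have h3 := neg_abs_le (F.c i p - (F.c i p + ((m : ℤ) : ℝ) * F.tr i))
  push_cast at h1 h3
  linarith

end resc

/-- One Dehn filling. -/
theorem geo_step (Q V : Type) [Group Q] [MulAction Q V] (X : GM V) (o : V) (τ₀ : ℝ) (n : ℕ)
    (hτ : 0 < τ₀) (hn : Odd n) (hg : Good Q V X 122 (10 ^ 9) τ₀ n)
    (htr : ∀ v, ∃ g : Q, g • o = v) (U : Finset Q) (hU : ∀ g : Q, X.d o (g • o) ≤ 1 → g ∈ U)
    (y : Q) (hy : y ^ n ≠ 1) :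
    ∃ C : ℕ, ∀ t : ℕ, Odd t → ∃ (Q' V' : Type) (_ : Group Q') (_ : MulAction Q' V')
      (X' : GM V') (o' : V') (τ' : ℝ) (n' : ℕ) (β : Q →* Q') (U' : Finset Q'),
      0 < τ' ∧ Odd n' ∧ Good Q' V' X' 122 (10 ^ 9) τ' n' ∧ (∀ v, ∃ g : Q', g • o' = v) ∧
      (∀ g : Q', X'.d o' (g • o') ≤ 1 → g ∈ U') ∧ U'.card ≤ C * t ∧ Function.Surjective β ∧
      (∀ g : Q, X.d o (g • o) ≤ 1 → X'.d o' (β g • o') ≤ 1) ∧
      (∀ g : Q, β g = 1 → X.d o (g • o) ≤ 2 * t → g = 1) ∧ IsOfFinOrder (β y) := by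
  classical
  obtain ⟨-, t2, -, t4, t5, -, -⟩ := thm_tau Q V X hg.inv
  have hy1 : y ≠ 1 := by rintro rfl; exact hy (one_pow n)
  obtain ⟨x, hx⟩ := hg.cyc y hy1
  obtain ⟨e, he⟩ := Subgroup.mem_zpowers_iff.1 (hx y (Commute.refl y))
  have hprim : ∀ a, Commute a x → a ∈ Subgroup.zpowers x := by
    intro a ha
    apply hx
    rw [← he]
    exact ha.zpow_right e
  have hxpos : 0 < X.tau x := by
    have h1 := t4 x e
    rw [he] at h1
    have h2 := (hg.dich y).resolve_left hy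
    by_contra h3
    have h4 : X.tau x = 0 := le_antisymm (not_lt.1 h3) (t2 x)
    rw [h4, mul_zero] at h1
    linarith
  set B := ⌈X.tau x⌉₊ with hB
  set L := 10 ^ 9 + 13000 * 122 + 1000 * B with hL
  set m0 := 2 * ⌈(10 ^ 9 : ℝ) * L / X.tau x⌉₊ + 1 with hm0
  have hm0big : (10 ^ 9 : ℝ) * L ≤ m0 * X.tau x := by
    have h1 : (10 ^ 9 : ℝ) * L / X.tau x ≤ ⌈(10 ^ 9 : ℝ) * L / X.tau x⌉₊ := Nat.le_ceil _
    rw [div_le_iff₀ hxpos] at h1
    refine h1.trans (mul_le_mul_of_nonneg_right ?_ hxpos.le)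
    rw [hm0]; push_cast
    have : (0 : ℝ) ≤ ⌈(10 ^ 9 : ℝ) * L / X.tau x⌉₊ := Nat.cast_nonneg _
    linarith
  obtain ⟨I, _, F0, hF1, hF2⟩ := s_lines Q V X 122 (10 ^ 9) L B
    (fun g => ∃ s, g = s * x * s⁻¹) (fun _ => m0) hg.inv hg.four hg.cyc hg.mal hg.acyl
    (by norm_num) le_rfl
    (by
      rintro g s ⟨u, rfl⟩
      exact ⟨⟨s * u, by group⟩, rfl⟩)
    (by
      rintro g ⟨s, rfl⟩
      rw [t5]
      refine ⟨hxpos, Nat.le_ceil _, fun a ha => ?_, hm0big⟩
      have hc : Commute (s⁻¹ * a * s) x := by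
        have e := ha.eq
        change s⁻¹ * a * s * x = x * (s⁻¹ * a * s)
        calc s⁻¹ * a * s * x = s⁻¹ * (a * (s * x * s⁻¹)) * s := by group
          _ = s⁻¹ * ((s * x * s⁻¹) * a) * s := by rw [e]
          _ = x * (s⁻¹ * a * s) := by group
      obtain ⟨k, hk⟩ := Subgroup.mem_zpowers_iff.1 (hprim _ hc)
      refine Subgroup.mem_zpowers_iff.2 ⟨k, ?_⟩
      rw [conj_zpow, hk]; group)
  have htrB : ∀ i, F0.tr i ≤ B := by
    intro i
    obtain ⟨⟨s, hs⟩, -⟩ := hF1 i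
    have := tr_le_tau F0 hg.inv i
    rw [hs, t5] at this
    exact this.trans (Nat.le_ceil _)
  obtain ⟨Bx, -, hBx⟩ := ball_card hg.inv htr U hU (B + L)
  refine ⟨m0 * Bx.card ^ 2, fun t ht => ?_⟩
  have ht1 : 1 ≤ t := ht.pos
  have ht1' : (1 : ℝ) ≤ t := by exact_mod_cast ht1
  have hL244 : 244 ≤ L := by omega
  have hbig2 : ∀ i, (10 ^ 9 : ℝ) * ((t * L : ℕ) : ℝ) ≤ ((m0 * t : ℕ) : ℝ) * F0.tr i := by
    intro i
    have h1 := F0.big i
    rw [(hF1 i).2] at h1
    push_cast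
    nlinarith
  have hbig1 : ∀ i, (10 ^ 9 : ℝ) * L ≤ ((m0 * t : ℕ) : ℝ) * F0.tr i := by
    intro i
    refine le_trans ?_ (hbig2 i)
    have : (0 : ℝ) ≤ L := Nat.cast_nonneg _
    push_cast
    nlinarith
  set F := resc F0 L (m0 * t) le_rfl hbig1 with hF
  set F' := resc F0 (t * L) (m0 * t) (Nat.le_mul_of_pos_left L ht1) hbig2 with hF'
  have hK : F'.K = F.K := rfl
  obtain ⟨E, hE⟩ := s_elec Q V I X 122 L F hg.inv hg.four (by omega) (by omega)
  obtain ⟨W, J, _, _, A, φ, hq, hadj⟩ := quo_adj Q V I X L F E hg.ne hg.inv (by omega) hE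
    (ind_self F E hg.inv (by omega) hE)
  have hm0odd : Odd m0 := ⟨_, rfl⟩
  have hn' : Odd (n * (m0 * t)) := hn.mul (hm0odd.mul ht)
  have hd : ∀ g : Q, g ^ n = 1 → g ^ (n * (m0 * t)) = 1 := fun g h => by
    rw [pow_mul, h, one_pow]
  have hg2 : Good Q V X 122 (10 ^ 9) τ₀ (n * (m0 * t)) :=
    ⟨hg.ne, hg.inv, hg.four, fun g => (hg.dich g).imp_left (hd g), hg.cyc, hg.mal, hg.acyl⟩
  have hτ1 : 0 < min τ₀ 1 := lt_min hτ one_pos
  obtain ⟨hg', -⟩ := s_step Q V I X 122 (10 ^ 9) L (n * (m0 * t)) τ₀ (min τ₀ 1) F _ W J _ A φ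
    hg2 hn' (fun i => Dvd.intro_left n rfl) (by omega) hτ1 (min_le_right _ _)
    (fun g => (hg2.dich g).imp_right fun h => Or.inr ((min_le_left _ _).trans h)) hq
  set β := QuotientGroup.mk' F.K with hβ
  have hker : ∀ k : Q, β k = 1 ↔ k ∈ F.K := fun k => QuotientGroup.eq_one_iff k
  have hLpos : (0 : ℝ) < L := by exact_mod_cast (by omega : 0 < L)
  refine ⟨Q ⧸ F.K, W, inferInstance, inferInstance, A.Z, φ o, _, _, β,
    (Finset.range (m0 * t) ×ˢ Bx ×ˢ Bx).image fun p => β p.2.1 ^ p.1 * β p.2.2,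
    by positivity, hn', hg', ?_, ?_, ?_, hq.surj, ?_, ?_, ?_⟩
  · intro w
    obtain ⟨v, rfl⟩ := hq.φ_surj w
    obtain ⟨g, rfl⟩ := htr v
    exact ⟨β g, (hq.φ_smul g o).symm⟩
  · intro g' h1
    obtain ⟨g0, rfl⟩ := hq.surj g'
    rw [← hq.φ_smul] at h1
    obtain ⟨k, hk, h2⟩ := hadj _ _ h1
    have e0 : β g0 = β (k * g0) := by rw [map_mul, (hker k).2 hk, one_mul]
    rw [← mul_smul] at h2
    rw [e0]
    generalize k * g0 = g at h2
    have hpos : 0 < m0 * t := Nat.mul_pos hm0odd.pos ht1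
    rcases hE.adj _ _ h2 with h3 | ⟨i, h3, h4⟩
    · refine Finset.mem_image.2 ⟨(0, 1, g), ?_, by simp⟩
      refine Finset.mem_product.2 ⟨Finset.mem_range.2 hpos, Finset.mem_product.2 ⟨?_, ?_⟩⟩
      · exact hBx 1 (by rw [one_smul, X.self]; omega)
      · exact hBx g (by omega)
    · have hfix : ∀ z : ℤ, (F.gen i ^ z) • i = i := fun z =>
        (F.stab _ _).2 (Subgroup.mem_zpowers_iff.2 ⟨z, rfl⟩)
      have htp : 0 < F.tr i := F.tr_pos i
      have htB : F.tr i ≤ B := htrB i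
      have short : ∀ a : Q, a • o ∈ F.Y i → |F.c i o - F.c i (a • o)| ≤ F.tr i → a ∈ Bx := by
        intro a ha1 ha2
        apply hBx
        have h5 := F.near i o h3 _ ha1
        have h6 : (X.d o (a • o) : ℝ) ≤ B + L := by linarith
        have h7 : X.d o (a • o) ≤ B + L := by exact_mod_cast h6
        omega
      set z := ⌊(F.c i (g • o) - F.c i o) / F.tr i⌋ with hz
      have z1 : (z : ℝ) * F.tr i ≤ F.c i (g • o) - F.c i o := by
        rw [← le_div_iff₀ htp]; exact Int.floor_le _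
      have z2 : F.c i (g • o) - F.c i o < (z + 1) * F.tr i := by
        rw [← div_lt_iff₀ htp]; exact Int.lt_floor_add_one _
      have m1 : F.gen i ∈ Bx := by
        have h5 := hfix 1
        rw [zpow_one] at h5
        refine short _ (Tquo.Y_fix F h5 h3) ?_
        rw [F.c_gen, abs_le]; constructor <;> linarith
      have m2 : F.gen i ^ (-z) * g ∈ Bx := by
        refine short _ (by rw [mul_smul]; exact Tquo.Y_fix F (hfix _) h4) ?_
        rw [mul_smul, Tquo.c_zpow, abs_le]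
        push_cast
        constructor <;> linarith
      have hrel : β (F.gen i) ^ ((m0 * t : ℕ) : ℤ) = 1 := by
        rw [zpow_natCast, ← map_pow]; exact hq.rel i
      have hpos' : (0 : ℤ) < ((m0 * t : ℕ) : ℤ) := by exact_mod_cast hpos
      have k1 := Int.emod_nonneg z hpos'.ne'
      have k2 := Int.emod_lt_of_pos z hpos'
      refine Finset.mem_image.2 ⟨((z % ((m0 * t : ℕ) : ℤ)).toNat, F.gen i, F.gen i ^ (-z) * g),
        ?_, ?_⟩
      · refine Finset.mem_product.2 ⟨Finset.mem_range.2 ?_, Finset.mem_product.2 ⟨m1, m2⟩⟩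
        show (z % ((m0 * t : ℕ) : ℤ)).toNat < m0 * t
        omega
      · show β (F.gen i) ^ (z % ((m0 * t : ℕ) : ℤ)).toNat * β (F.gen i ^ (-z) * g) = β g
        rw [← zpow_natCast, Int.toNat_of_nonneg k1, ← zpow_eq_zpow_emod z hrel, map_mul,
          map_zpow]
        group
  · refine Finset.card_image_le.trans (le_of_eq ?_)
    simp only [Finset.card_product, Finset.card_range]
    ring
  · intro g h1
    rw [← hq.φ_smul]
    exact hq.scale 0 o (g • o) (by omega)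
  · intro g h1 h2
    refine inj_rad F' hg.inv hg.four (le_trans hL244 (Nat.le_mul_of_pos_left L ht1)) g
      (hK ▸ (hker g).1 h1) o (h2.trans ?_)
    nlinarith
  · obtain ⟨i, hi⟩ := hF2 x ⟨1, by group⟩
    have h1 : IsOfFinOrder (β (F.gen i)) := by
      refine isOfFinOrder_iff_pow_eq_one.2 ⟨m0 * t, Nat.mul_pos hm0odd.pos ht1, ?_⟩
      rw [← map_pow]; exact hq.rel i
    have h2 : IsOfFinOrder (β x) := by
      rcases hi with hi | hi
      · rw [hi]; exact h1
      · rw [hi, map_inv]; exact h1.inv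
    rw [← he, map_zpow]
    exact h2.zpow

end Pool.Agent.H782Z
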