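import Pool.Agent.H782Z.An
import Pool.Agent.H59Z.NA.Defs

set_option autoImplicit false

/-!
# Rapid decay for groups acting transitively on hyperbolic graphs, with explicit constants
-/

namespace Pool.Agent.H782Z

open MonoidAlgebra Pool.Agent.H59Z.NA

lemma trace_ineq {α β γ : Type} (U : Finset α) (V : Finset β) (W : Finset γ)
    (a : α → β → ℝ) (b : β → γ → ℝ) (c : α → γ → ℝ) :
    (∑ u ∈ U, ∑ v ∈ V, ∑ w ∈ W, a u v * b v w * c u w) ^ 2 ≤
      (∑ u ∈ U, ∑ v ∈ V, a u v ^ 2) * (∑ v ∈ V, ∑ w ∈ W, b v w ^ 2) *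
        (∑ u ∈ U, ∑ w ∈ W, c u w ^ 2) := by
  have e1 : ∑ u ∈ U, ∑ v ∈ V, ∑ w ∈ W, a u v * b v w * c u w =
      ∑ p ∈ U ×ˢ V, a p.1 p.2 * ∑ w ∈ W, b p.2 w * c p.1 w := by
    rw [Finset.sum_product]
    refine Finset.sum_congr rfl fun u _ => Finset.sum_congr rfl fun v _ => ?_
    rw [Finset.mul_sum]
    exact Finset.sum_congr rfl fun w _ => by ring
  have e2 : ∑ u ∈ U, ∑ v ∈ V, a u v ^ 2 = ∑ p ∈ U ×ˢ V, a p.1 p.2 ^ 2 := by
    rw [Finset.sum_product]
  have e3 : (∑ v ∈ V, ∑ w ∈ W, b v w ^ 2) * (∑ u ∈ U, ∑ w ∈ W, c u w ^ 2) =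
      ∑ p ∈ U ×ˢ V, (∑ w ∈ W, b p.2 w ^ 2) * (∑ w ∈ W, c p.1 w ^ 2) := by
    rw [Finset.sum_product, mul_comm, Finset.sum_mul_sum]
    exact Finset.sum_congr rfl fun u _ => Finset.sum_congr rfl fun v _ => mul_comm _ _
  rw [e1, e2, mul_assoc, e3]
  refine (Finset.sum_mul_sq_le_sq_mul_sq _ _ _).trans ?_
  refine mul_le_mul_of_nonneg_left (Finset.sum_le_sum fun p _ => ?_)
    (Finset.sum_nonneg fun p _ => sq_nonneg _)
  exact Finset.sum_mul_sq_le_sq_mul_sq _ _ _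

variable {G : Type} [Group G]

lemma hs_bound [DecidableEq G] (Bet : G → Finset G) (P : ℕ) (hP : ∀ g, (Bet g).card ≤ P)
    (χ : MonoidAlgebra ℝ G) (e : G → G) (he : Function.Injective e) (U W : Finset G) :
    ∑ u ∈ U, ∑ w ∈ W, (if u ∈ Bet (u * e w) then |χ.coeff (u * e w)| else 0) ^ 2 ≤
      P * ip χ χ := by
  have h1 : ∀ u, ∑ w ∈ W, (if u ∈ Bet (u * e w) then |χ.coeff (u * e w)| else 0) ^ 2 ≤
      ∑ x ∈ χ.coeff.support, if u ∈ Bet x then χ.coeff x ^ 2 else 0 := by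
    intro u
    have e1 : ∑ w ∈ W, (if u ∈ Bet (u * e w) then |χ.coeff (u * e w)| else 0) ^ 2 =
        ∑ x ∈ W.image (fun w => u * e w), if u ∈ Bet x then χ.coeff x ^ 2 else 0 := by
      rw [Finset.sum_image (fun x _ y _ h => he (mul_left_cancel h))]
      refine Finset.sum_congr rfl fun w _ => ?_
      split_ifs <;> simp
    rw [e1, ← Finset.sum_filter_of_ne (p := fun x => x ∈ χ.coeff.support)]
    · refine Finset.sum_le_sum_of_subset_of_nonneg (fun x hx => (Finset.mem_filter.1 hx).2) ?_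
      intro x _ _
      split_ifs <;> positivity
    · intro x _ hx
      rw [Finsupp.mem_support_iff]
      intro h0
      apply hx
      rw [h0]; simp
  refine (Finset.sum_le_sum fun u _ => h1 u).trans ?_
  rw [Finset.sum_comm, ip_self, Finset.mul_sum]
  refine Finset.sum_le_sum fun x _ => ?_
  rw [← Finset.sum_filter, Finset.sum_const, nsmul_eq_mul]
  refine mul_le_mul_of_nonneg_right ?_ (sq_nonneg _)
  have : (U.filter fun u => u ∈ Bet x).card ≤ P :=
    (Finset.card_le_card fun u hu => (Finset.mem_filter.1 hu).2).trans (hP x)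
  exact_mod_cast this

lemma ip_mul (f φ ψ : MonoidAlgebra ℝ G) : ip (f * φ) ψ =
    ∑ p ∈ f.coeff.support ×ˢ φ.coeff.support,
      f.coeff p.1 * φ.coeff p.2 * ψ.coeff (p.1 * p.2) := by
  let L : MonoidAlgebra ℝ G →+ ℝ :=
    { toFun := fun x => ip x ψ
      map_zero' := ip_zero_left ψ
      map_add' := fun x y => ip_add_left x y ψ }
  have e : ip (f * φ) ψ = L (f * φ) := rfl
  rw [e, mul_def, map_finsuppSum, Finset.sum_product, Finsupp.sum]
  refine Finset.sum_congr rfl fun g _ => ?_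
  rw [map_finsuppSum, Finsupp.sum]
  refine Finset.sum_congr rfl fun h _ => ?_
  exact ip_single_left _ _ _

/-- The centroid criterion. -/
lemma centroid (Bet : G → Finset G) (P : ℕ) (hP : ∀ g, (Bet g).card ≤ P)
    (f φ : MonoidAlgebra ℝ G)
    (hc : ∀ g ∈ f.coeff.support, ∀ h : G, ∃ t, t ∈ Bet g ∧ g⁻¹ * t ∈ Bet h ∧ t ∈ Bet (g * h)) :
    ip (f * φ) (f * φ) ≤ (P : ℝ) ^ 3 * ip f f * ip φ φ := by
  classical
  set ψ := f * φ with hψ
  choose! t ht using hc
  set S := f.coeff.support ×ˢ φ.coeff.support with hS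
  let κ : G × G → G × G × G := fun p => (t p.1 p.2, p.1⁻¹ * t p.1 p.2, (t p.1 p.2)⁻¹ * (p.1 * p.2))
  let a : G → G → ℝ := fun u v => if u ∈ Bet (u * v⁻¹) then |f.coeff (u * v⁻¹)| else 0
  let b : G → G → ℝ := fun v w => if v ∈ Bet (v * w) then |φ.coeff (v * w)| else 0
  let c : G → G → ℝ := fun u w => if u ∈ Bet (u * w) then |ψ.coeff (u * w)| else 0
  let T : G × G × G → ℝ := fun q => a q.1 q.2.1 * b q.2.1 q.2.2 * c q.1 q.2.2
  have ha : ∀ u v, 0 ≤ a u v := fun u v => by simp only [a]; split_ifs <;> positivity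
  have hb : ∀ u v, 0 ≤ b u v := fun u v => by simp only [b]; split_ifs <;> positivity
  have hc : ∀ u v, 0 ≤ c u v := fun u v => by simp only [c]; split_ifs <;> positivity
  have hκ : Function.Injective κ := by
    rintro ⟨g, h⟩ ⟨g', h'⟩ e
    simp only [κ, Prod.mk.injEq] at e
    obtain ⟨e1, e2, e3⟩ := e
    rw [e1] at e2 e3
    have e4 : g = g' := inv_injective (mul_right_cancel e2)
    subst e4
    have e5 : h = h' := mul_left_cancel (mul_left_cancel e3)
    rw [e5]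
  set U := S.image fun p => (κ p).1 with hU
  set V := S.image fun p => (κ p).2.1 with hV
  set W := S.image fun p => (κ p).2.2 with hW
  have h1 : ip ψ ψ ≤ ∑ p ∈ S, T (κ p) := by
    conv_lhs => rw [hψ, ip_mul, ← hψ]
    refine Finset.sum_le_sum fun p hp => ?_
    obtain ⟨t1, t2, t3⟩ := ht p.1 (Finset.mem_product.1 hp).1 p.2
    have q1 : t p.1 p.2 * (p.1⁻¹ * t p.1 p.2)⁻¹ = p.1 := by group
    have q2 : p.1⁻¹ * t p.1 p.2 * ((t p.1 p.2)⁻¹ * (p.1 * p.2)) = p.2 := by group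
    have q3 : t p.1 p.2 * ((t p.1 p.2)⁻¹ * (p.1 * p.2)) = p.1 * p.2 := by group
    simp only [T, κ, a, b, c, q1, q2, q3, if_pos t1, if_pos t2, if_pos t3]
    rw [← abs_mul, ← abs_mul]
    exact le_abs_self _
  have h2 : ∑ p ∈ S, T (κ p) ≤ ∑ u ∈ U, ∑ v ∈ V, ∑ w ∈ W, a u v * b v w * c u w := by
    rw [← Finset.sum_image (s := S) (g := κ) (f := T) (fun x _ y _ h => hκ h)]
    have e : ∑ u ∈ U, ∑ v ∈ V, ∑ w ∈ W, a u v * b v w * c u w = ∑ q ∈ U ×ˢ (V ×ˢ W), T q := by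
      rw [Finset.sum_product]
      refine Finset.sum_congr rfl fun u _ => ?_
      rw [Finset.sum_product]
    rw [e]
    refine Finset.sum_le_sum_of_subset_of_nonneg ?_ fun q _ _ =>
      mul_nonneg (mul_nonneg (ha _ _) (hb _ _)) (hc _ _)
    intro q hq
    obtain ⟨p, hp, rfl⟩ := Finset.mem_image.1 hq
    exact Finset.mem_product.2 ⟨Finset.mem_image_of_mem _ hp, Finset.mem_product.2
      ⟨Finset.mem_image_of_mem _ hp, Finset.mem_image_of_mem _ hp⟩⟩
  have h3 := trace_ineq U V W a b c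
  have k1 : ∑ u ∈ U, ∑ v ∈ V, a u v ^ 2 ≤ P * ip f f :=
    hs_bound Bet P hP f (fun x => x⁻¹) inv_injective U V
  have k2 : ∑ v ∈ V, ∑ w ∈ W, b v w ^ 2 ≤ P * ip φ φ :=
    hs_bound Bet P hP φ (fun x => x) (fun _ _ h => h) V W
  have k3 : ∑ u ∈ U, ∑ w ∈ W, c u w ^ 2 ≤ P * ip ψ ψ :=
    hs_bound Bet P hP ψ (fun x => x) (fun _ _ h => h) U W
  have n1 := ip_self_nonneg f
  have n2 := ip_self_nonneg φ
  have n3 := ip_self_nonneg ψ
  have h4 : ip ψ ψ ^ 2 ≤ (P * ip f f) * (P * ip φ φ) * (P * ip ψ ψ) := by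
    refine (pow_le_pow_left₀ n3 (h1.trans h2) 2).trans (h3.trans ?_)
    have m2 : 0 ≤ ∑ v ∈ V, ∑ w ∈ W, b v w ^ 2 := by positivity
    have m3 : 0 ≤ ∑ u ∈ U, ∑ w ∈ W, c u w ^ 2 := by positivity
    exact mul_le_mul (mul_le_mul k1 k2 m2 (by positivity)) k3 m3 (by positivity)
  rcases n3.eq_or_lt with h | h
  · rw [← h]; positivity
  · refine le_of_mul_le_mul_right ?_ h
    calc ip ψ ψ * ip ψ ψ = ip ψ ψ ^ 2 := by ring
      _ ≤ _ := h4
      _ = _ := by ring

variable {V : Type} [MulAction G V] {X : GM V} {o : V}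

lemma d_shift (hX : X.Inv G) (g h : G) : X.d o ((g⁻¹ * h) • o) = X.d (g • o) (h • o) := by
  rw [← hX g o, ← mul_smul, mul_inv_cancel_left]

lemma ball_card (hX : X.Inv G) (htr : ∀ v, ∃ g : G, g • o = v) (U : Finset G)
    (hU : ∀ g : G, X.d o (g • o) ≤ 1 → g ∈ U) (D : ℕ) :
    ∃ B : Finset G, B.card ≤ U.card ^ (D + 1) ∧ ∀ g : G, X.d o (g • o) ≤ D + 1 → g ∈ B := by
  classical
  induction D with
  | zero => exact ⟨U, by simp, hU⟩
  | succ D ih =>
    obtain ⟨B, hB1, hB2⟩ := ih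
    refine ⟨Finset.image₂ (· * ·) B U, ?_, fun g hg => ?_⟩
    · refine Finset.card_image₂_le _ _ _ |>.trans ?_
      rw [pow_succ]
      exact Nat.mul_le_mul_right _ hB1
    · by_cases h : X.d o (g • o) ≤ D + 1
      · exact Finset.mem_image₂.2 ⟨g, hB2 g h, 1, hU 1 (by rw [one_smul, X.self]; omega),
          mul_one g⟩
      · obtain ⟨z, hz1, hz2⟩ := X.geo o (g • o) (D + 1) (by omega)
        obtain ⟨k, rfl⟩ := htr z
        refine Finset.mem_image₂.2 ⟨k, hB2 k hz1.le, k⁻¹ * g, hU _ ?_, mul_inv_cancel_left k g⟩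
        rw [d_shift hX]; omega

lemma bet_card (hX : X.Inv G) {δ : ℕ} (h4 : X.Four δ) (c : ℕ) (B : Finset G)
    (hB : ∀ g : G, X.d o (g • o) ≤ c + δ → g ∈ B) (r : ℕ) (g : G) :
    ∃ S : Finset G, S.card ≤ (r + 1) * B.card ∧ ∀ u : G, X.d o (u • o) ≤ r →
      X.d o (u • o) + X.d (u • o) (g • o) ≤ X.d o (g • o) + c → u ∈ S := by
  classical
  have key : ∀ a : ℕ, ∃ S : Finset G, S.card ≤ B.card ∧ ∀ u : G, X.d o (u • o) = a →
      X.d o (u • o) + X.d (u • o) (g • o) ≤ X.d o (g • o) + c → u ∈ S := by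
    intro a
    by_cases h : ∃ u : G, X.d o (u • o) = a ∧
        X.d o (u • o) + X.d (u • o) (g • o) ≤ X.d o (g • o) + c
    · obtain ⟨u0, h1, h2⟩ := h
      refine ⟨B.image (u0 * ·), Finset.card_image_le, fun u h3 h5 => ?_⟩
      refine Finset.mem_image.2 ⟨u0⁻¹ * u, hB _ ?_, mul_inv_cancel_left u0 u⟩
      rw [d_shift hX]
      have h6 := h4 (u0 • o) (u • o) o (g • o)
      have h7 := X.comm (u0 • o) o
      have h8 := X.comm (u • o) o
      omega
    · exact ⟨∅, by simp, fun u h1 h2 => absurd ⟨u, h1, h2⟩ h⟩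
  choose S hS1 hS2 using key
  refine ⟨(Finset.range (r + 1)).biUnion S, ?_, fun u h1 h2 => ?_⟩
  · refine Finset.card_biUnion_le.trans ?_
    refine (Finset.sum_le_sum fun a _ => hS1 a).trans ?_
    simp
  · exact Finset.mem_biUnion.2 ⟨_, Finset.mem_range.2 (by omega), hS2 _ u rfl h2⟩

/-- Rapid decay with explicit constants. -/
theorem hyp_rd (hX : X.Inv G) (h4 : X.Four 122) (htr : ∀ v, ∃ g : G, g • o = v) (U : Finset G)
    (hU : ∀ g : G, X.d o (g • o) ≤ 1 → g ∈ U) (r : ℕ) (f φ : MonoidAlgebra ℝ G)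
    (hf : ∀ g ∈ f.coeff.support, X.d o (g • o) ≤ r) :
    ip (f * φ) (f * φ) ≤ (U.card : ℝ) ^ 735 * (1 + r) ^ 3 * ip f f * ip φ φ := by
  obtain ⟨B, hB1, hB2⟩ := ball_card hX htr U hU 244
  choose Bet hb1 hb2 using bet_card hX h4 123 B hB2 r
  have h := centroid Bet ((r + 1) * U.card ^ 245)
    (fun g => (hb1 g).trans (Nat.mul_le_mul_left _ hB1)) f φ (by
      intro g hg h
      have hr := hf g hg
      have t1 := X.tri o (g • o) ((g * h) • o)
      have t2 := X.tri (g • o) o ((g * h) • o)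
      have t3 := X.tri o ((g * h) • o) (g • o)
      have c1 := X.comm (g • o) o
      have c2 := X.comm (g • o) ((g * h) • o)
      obtain ⟨z, hz1, hz2⟩ := X.geo o (g • o)
        ((X.d o (g • o) + X.d o ((g * h) • o) - X.d (g • o) ((g * h) • o)) / 2) (by omega)
      obtain ⟨t, rfl⟩ := htr z
      have q := h4 (t • o) ((g * h) • o) o (g • o)
      have c3 := X.comm (t • o) o
      have c4 := X.comm ((g * h) • o) o
      have c5 := X.comm (t • o) (g • o)
      refine ⟨t, hb2 g t (by omega) (by omega), hb2 h _ ?_ ?_, hb2 _ t (by omega) (by omega)⟩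
      · rw [d_shift hX]; omega
      · have e1 : X.d ((g⁻¹ * t) • o) (h • o) = X.d (t • o) ((g * h) • o) := by
          rw [← hX g, ← mul_smul, ← mul_smul, mul_inv_cancel_left]
        have e2 : X.d o (h • o) = X.d (g • o) ((g * h) • o) := by
          rw [← hX g o, ← mul_smul]
        rw [d_shift hX, e1, e2]; omega)
  refine h.trans (le_of_eq ?_)
  push_cast
  ring

end Pool.Agent.H782Z
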