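import Pool.Agent.H782Z.An

set_option autoImplicit false

/-!
# The analytic step: rapid decay constants almost do not grow in a deep filling
-/

namespace Pool.Agent.H782Z

open scoped Pointwise
open Filter

lemma exp_beats (k : ℕ) (t c : ℝ) (ht : 1 < t) (hc : 0 < c) :
    ∃ J0 : ℕ, ∀ J : ℕ, J0 ≤ J → c * (J : ℝ) ^ k < t ^ J := by
  have h := (tendsto_pow_const_div_const_pow_of_one_lt k ht).eventually
    (gt_mem_nhds (show (0 : ℝ) < 1 / c by positivity))
  obtain ⟨J0, hJ⟩ := eventually_atTop.1 h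
  refine ⟨J0, fun J h1 => ?_⟩
  have h2 := hJ J h1
  have h3 : (0 : ℝ) < t ^ J := by positivity
  rw [div_lt_div_iff₀ h3 hc] at h2
  linarith

variable {F : Type} [Group F]

theorem an_step {G : Type} [Group G] (T : Set F) (hT : T⁻¹ = T) (h1 : (1 : F) ∈ T) (π : F →* G)
    (p q e D : ℕ) (he : e = 1 + p + q) (hD : D = 2 * e + (1 + q))
    (a a' N C : ℝ) (ha : 1 ≤ a) (haa : a < a') (hN : 0 ≤ N) (hC : 0 ≤ C)
    (hG : ∀ r : ℕ, 1 ≤ r → RDq T π r (a * (1 + r) ^ D))
    (hG0 : ∀ r : ℕ, RDq T π r (N * (1 + r) ^ q)) :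
    ∃ m0 : ℕ, ∀ m : ℕ, m0 ≤ m → ∀ (G' : Type) [Group G'] (π' : F →* G'),
      (∀ x ∈ T ^ m, ∀ y ∈ T ^ m, π x = π y ↔ π' x = π' y) →
      (∀ r : ℕ, RDq T π' r (C * (m : ℝ) ^ p * (1 + r) ^ q)) →
      ∀ r : ℕ, 1 ≤ r → RDq T π' r (a' * (1 + r) ^ D) := by
  set R : ℕ := ⌈N⌉₊ + 1 with hR
  have hRN : N ≤ R := by rw [hR]; push_cast; linarith [Nat.le_ceil N]
  have hR1 : 1 ≤ R := by omega
  have hR1' : (1 : ℝ) ≤ R := by exact_mod_cast hR1
  have ha0 : 0 < a := by linarith
  have ht0 : 1 < a' / a := by rw [lt_div_iff₀ ha0]; linarith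
  obtain ⟨J0, hJ0⟩ := exp_beats e (a' / a) ((2 * R) ^ e) ht0 (by positivity)
  refine ⟨max ⌈C⌉₊ (2 * R * J0), fun m hm G' _ π' hag hG' r hr => ?_⟩
  have hm1 : C ≤ m := (Nat.le_ceil C).trans (by exact_mod_cast le_trans (le_max_left _ _) hm)
  have hm2 : 2 * R * J0 ≤ m := le_trans (le_max_right _ _) hm
  have hm0 : (0 : ℝ) ≤ m := Nat.cast_nonneg m
  have hr0 : (0 : ℝ) ≤ r := Nat.cast_nonneg r
  have key : ∀ s : ℕ, m ≤ s → RDq T π' s ((1 + s) ^ e) := by
    intro s hs
    refine (hG' s).mono ?_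
    have hs' : (m : ℝ) ≤ 1 + s := by
      have : (m : ℝ) ≤ s := by exact_mod_cast hs
      linarith
    generalize (1 + s : ℝ) = x at hs'
    have e1 : x ^ e = x * x ^ p * x ^ q := by rw [he, pow_add, pow_add, pow_one]
    rw [e1]
    have hx : 0 ≤ x := hm0.trans hs'
    exact mul_le_mul_of_nonneg_right
      (mul_le_mul (hm1.trans hs') (pow_le_pow_left₀ hm0 hs' _) (by positivity) hx) (by positivity)
  have hx1 : (1 : ℝ) ≤ 1 + r := by linarith
  rcases le_or_gt m r with h | h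
  · refine (key r h).mono ?_
    generalize (1 + r : ℝ) = x at hx1
    have h2 : x ^ e ≤ x ^ D := pow_le_pow_right₀ hx1 (by omega)
    have h3 : 0 ≤ x ^ D := by positivity
    nlinarith
  · have hq : m / r ≠ 0 := (Nat.div_pos h.le hr).ne'
    set j := Nat.log 2 (m / r) with hj
    have j1 : 2 ^ j * r ≤ m :=
      (Nat.mul_le_mul_right r (Nat.pow_log_le_self 2 hq)).trans (Nat.div_mul_le_self m r)
    have j2 : m + 1 ≤ 2 * 2 ^ j * r := by
      have h2 : m / r < 2 ^ (j + 1) := Nat.lt_pow_succ_log_self (by norm_num) _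
      rw [Nat.div_lt_iff_lt_mul hr, pow_succ] at h2
      have e1 : 2 ^ j * 2 * r = 2 * 2 ^ j * r := by ring
      omega
    have j3 : (1 : ℝ) + m ≤ 2 * 2 ^ j * r := by
      have : ((m + 1 : ℕ) : ℝ) ≤ ((2 * 2 ^ j * r : ℕ) : ℝ) := by exact_mod_cast j2
      push_cast at this
      linarith
    rcases le_or_gt R r with h2 | h2
    · have b1 := one_add_mul_le_pow (show (-2 : ℝ) ≤ r by linarith) (2 * 2 ^ j)
      have b2 : (1 : ℝ) + m ≤ (1 + r) ^ (2 * 2 ^ j) := by
        push_cast at b1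
        linarith
      have b3 : ((1 : ℝ) + m) ^ e ≤ ((1 + r) ^ (2 * e)) ^ (2 ^ j) := by
        refine (pow_le_pow_left₀ (by positivity) b2 e).trans (le_of_eq ?_)
        rw [← pow_mul, ← pow_mul]
        congr 1
        ring
      refine (transfer T hT h1 π π' r j m _ _ _ (by positivity) (by positivity) (by positivity)
        j1 hag (hG0 r) (key m le_rfl) b3).mono ?_
      have hx2 : N ≤ 1 + r := by
        have : (R : ℝ) ≤ r := by exact_mod_cast h2
        linarith
      generalize (1 + r : ℝ) = x at hx1 hx2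
      have e1 : x ^ D = x ^ (2 * e) * (x * x ^ q) := by rw [hD, pow_add, pow_add, pow_one]
      have h3 : x ^ (2 * e) * (N * x ^ q) ≤ x ^ D := by
        rw [e1]
        exact mul_le_mul_of_nonneg_left (mul_le_mul_of_nonneg_right hx2 (by positivity))
          (by positivity)
      have h4 : 0 ≤ x ^ D := by positivity
      nlinarith
    · have b1 : J0 ≤ 2 ^ j := by
        have h3 : 2 * 2 ^ j * r ≤ 2 * R * 2 ^ j := by
          have := Nat.mul_le_mul_left (2 * 2 ^ j) h2.le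
          have e1 : 2 * 2 ^ j * R = 2 * R * 2 ^ j := by ring
          omega
        have h4 : 2 * R * J0 ≤ 2 * R * 2 ^ j := by omega
        exact Nat.le_of_mul_le_mul_left h4 (by omega)
      have b2 := hJ0 _ b1
      have b3 : ((1 : ℝ) + m) ^ e ≤ (a' / a) ^ (2 ^ j) := by
        refine le_trans ?_ b2.le
        rw [← mul_pow]
        refine pow_le_pow_left₀ (by positivity) (j3.trans ?_) e
        have h3 : (r : ℝ) ≤ R := by exact_mod_cast h2.le
        have h4 : (0 : ℝ) ≤ 2 ^ j := by positivity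
        push_cast
        nlinarith
      refine (transfer T hT h1 π π' r j m _ _ _ (by positivity) (by positivity) (by positivity)
        j1 hag (hG r hr) (key m le_rfl) b3).mono (le_of_eq ?_)
      generalize (1 + r : ℝ) ^ D = x
      field_simp

end Pool.Agent.H782Z
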