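import Pool.Agent.H782Z.Base
import Pool.Agent.H782Z.Num

set_option autoImplicit false

/-!
# The tower of fillings
-/

namespace Pool.Agent.H782Z

open Pool.Agent.H59Z.NA MonoidAlgebra Filter
open scoped Pointwise

/-- the free group of rank two -/
abbrev Fr : Type := FreeGroup Bool

/-- the unit ball of the free group -/
def T0 : Set Fr := Set.range FreeGroup.of ∪ (Set.range FreeGroup.of)⁻¹ ∪ {1}

lemma T0_inv : T0⁻¹ = T0 := by
  unfold T0
  simp only [Set.union_inv, inv_inv, Set.inv_singleton, inv_one]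
  rw [Set.union_comm (Set.range FreeGroup.of)⁻¹]

lemma T0_one : (1 : Fr) ∈ T0 := Or.inr rfl

lemma len_le {Q V : Type} [Group Q] [MulAction Q V] {X : GM V} {o : V} (hX : X.Inv Q)
    (π : Fr →* Q) (hgen : ∀ s ∈ T0, X.d o (π s • o) ≤ 1) (r : ℕ) :
    ∀ g ∈ T0 ^ r, X.d o (π g • o) ≤ r := by
  induction r with
  | zero =>
    intro g hg
    rw [pow_zero, Set.mem_one] at hg
    rw [hg, map_one, one_smul, X.self]
  | succ r ih =>
    intro g hg
    rw [pow_succ] at hg
    obtain ⟨a, ha, b, hb, rfl⟩ := hg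
    have h1 := ih a ha
    have h2 := hgen b hb
    have h3 := X.tri o (π a • o) (π (a * b) • o)
    have h4 : X.d (π a • o) (π (a * b) • o) = X.d o (π b • o) := by
      rw [map_mul, mul_smul, hX]
    show X.d o (π (a * b) • o) ≤ r + 1
    omega

lemma hyp_rdq (p : ℕ) (hp : p = 735) {Q V : Type} [Group Q] [MulAction Q V] {X : GM V} {o : V}
    (hX : X.Inv Q) (h4 : X.Four 122) (htr : ∀ v, ∃ g : Q, g • o = v) (U : Finset Q)
    (hU : ∀ g : Q, X.d o (g • o) ≤ 1 → g ∈ U) (π : Fr →* Q)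
    (hgen : ∀ s ∈ T0, X.d o (π s • o) ≤ 1) (r : ℕ) :
    RDq T0 π r ((U.card : ℝ) ^ p * (1 + r) ^ 3) := by
  classical
  intro f φ hf
  unfold nq
  rw [mapDomain_mul, hp]
  refine hyp_rd hX h4 htr U hU r _ _ fun g hg => ?_
  have h1 : g ∈ (Finsupp.mapDomain π f.coeff).support := hg
  obtain ⟨y, hy, rfl⟩ := Finset.mem_image.1 (Finsupp.mapDomain_support h1)
  exact len_le hX π hgen r y (hf hy)

/-- A stage of the construction. -/
structure Stage (D : ℕ) (A : ℝ) (r0 : ℕ) where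
  Q : Type
  V : Type
  [gQ : Group Q]
  [aV : MulAction Q V]
  X : GM V
  o : V
  τ : ℝ
  n : ℕ
  π : Fr →* Q
  U : Finset Q
  a : ℝ
  hτ : 0 < τ
  hn : Odd n
  good : Good Q V X 122 (10 ^ 9) τ n
  htr : ∀ v, ∃ g : Q, g • o = v
  hU : ∀ g : Q, X.d o (g • o) ≤ 1 → g ∈ U
  gen : ∀ s ∈ T0, X.d o (π s • o) ≤ 1
  ha1 : 1 ≤ a
  haA : a < A
  rd : ∀ r : ℕ, 1 ≤ r → RDq T0 π r (a * (1 + r) ^ D)
  inj : ∀ g ∈ T0 ^ r0, ∀ h ∈ T0 ^ r0, π g = π h → g = h

attribute [instance] Stage.gQ Stage.aV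

theorem stage_step (p D : ℕ) (hp : p = 735) (hD : D = 2 * (1 + p + 3) + (1 + 3)) (A : ℝ) (r0 : ℕ)
    (s : Stage D A r0) (y : Fr) :
    ∃ s' : Stage D A r0, (∀ g, s.π g = 1 → s'.π g = 1) ∧ IsOfFinOrder (s'.π y) := by
  by_cases hy : s.π y ^ s.n = 1
  · exact ⟨s, fun _ h => h, isOfFinOrder_iff_pow_eq_one.2 ⟨s.n, s.hn.pos, hy⟩⟩
  obtain ⟨C, hC⟩ := geo_step s.Q s.V s.X s.o s.τ s.n s.hτ s.hn s.good s.htr s.U s.hU _ hy
  have haa : s.a < (s.a + A) / 2 := by linarith [s.haA]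
  obtain ⟨m0, hm0⟩ := an_step T0 T0_inv T0_one s.π p 3 _ D rfl hD s.a ((s.a + A) / 2)
    ((s.U.card : ℝ) ^ p) ((C : ℝ) ^ p) s.ha1 haa (by positivity) (by positivity) s.rd
    (hyp_rdq p hp s.good.inv s.good.four s.htr s.U s.hU s.π s.gen)
  set t := 2 * (max m0 r0) + 1 with ht
  obtain ⟨Q', V', _, _, X', o', τ', n', β, U', h1, h2, h3, h4, h5, h6, -, h8, h9, h10⟩ :=
    hC t ⟨_, rfl⟩
  have hag : ∀ x ∈ T0 ^ t, ∀ z ∈ T0 ^ t, s.π x = s.π z ↔ (β.comp s.π) x = (β.comp s.π) z := by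
    intro x hx z hz
    refine ⟨fun h => by simp only [MonoidHom.comp_apply, h], fun h => ?_⟩
    have e1 : β ((s.π x)⁻¹ * s.π z) = 1 := by
      simp only [MonoidHom.comp_apply] at h
      rw [map_mul, map_inv, h, inv_mul_cancel]
    have e2 := h9 _ e1 (by
      rw [d_shift s.good.inv]
      have a1 := len_le s.good.inv s.π s.gen t x hx
      have a2 := len_le s.good.inv s.π s.gen t z hz
      have a3 := s.X.tri (s.π x • s.o) s.o (s.π z • s.o)
      have a4 := s.X.comm (s.π x • s.o) s.o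
      omega)
    exact inv_mul_eq_one.1 e2
  have hgen : ∀ u ∈ T0, X'.d o' ((β.comp s.π) u • o') ≤ 1 := fun u hu => h8 _ (s.gen u hu)
  have hrd := hm0 t (by omega) Q' (β.comp s.π) hag (fun r => by
    refine (hyp_rdq p hp h3.inv h3.four h4 U' h5 (β.comp s.π) hgen r).mono ?_
    refine mul_le_mul_of_nonneg_right ?_ (by positivity)
    rw [← mul_pow]
    exact pow_le_pow_left₀ (by positivity) (by exact_mod_cast h6) p)
  have hsub : T0 ^ r0 ⊆ T0 ^ t := Set.pow_subset_pow_right T0_one (by omega)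
  refine ⟨{ Q := Q', V := V', X := X', o := o', τ := τ', n := n', π := β.comp s.π, U := U',
            a := (s.a + A) / 2, hτ := h1, hn := h2, good := h3, htr := h4, hU := h5,
            gen := hgen, ha1 := s.ha1.trans haa.le, haA := by linarith [s.haA], rd := hrd,
            inj := fun g hg h hh e =>
              s.inj g hg h hh ((hag g (hsub hg) h (hsub hh)).2 e) }, ?_, h10⟩
  intro g hg
  show β (s.π g) = 1
  rw [hg, map_one]

theorem stage_base (p D : ℕ) (hp : p = 735) (hD : D = 2 * (1 + p + 3) + (1 + 3)) :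
    ∃ A : ℝ, 0 < A ∧ ∀ r0, Nonempty (Stage D A r0) := by
  classical
  set U : Finset Fr := insert 1 (Finset.univ.image fun x : Bool × Bool => FreeGroup.mk [x])
    with hU0
  have hU : ∀ g : Fr, Base.tree.d 1 (g • (1 : Fr)) ≤ 1 → g ∈ U := by
    intro g hg
    simp only [Base.tree_d, inv_one, smul_eq_mul, mul_one, one_mul] at hg
    have e := FreeGroup.mk_toWord (x := g)
    have hl : g.toWord.length ≤ 1 := hg
    rcases hw : g.toWord with _ | ⟨x, _ | ⟨y, l⟩⟩
    · rw [FreeGroup.toWord_eq_nil_iff.1 hw]; exact Finset.mem_insert_self _ _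
    · rw [hw] at e
      exact Finset.mem_insert_of_mem (Finset.mem_image.2 ⟨x, Finset.mem_univ _, e⟩)
    · rw [hw] at hl; simp at hl
  have hgen : ∀ s ∈ T0, Base.tree.d 1 ((MonoidHom.id Fr) s • (1 : Fr)) ≤ 1 := by
    intro s hs
    simp only [Base.tree_d, inv_one, smul_eq_mul, mul_one, one_mul, MonoidHom.id_apply]
    rcases hs with (⟨b, rfl⟩ | hs) | hs
    · rw [FreeGroup.norm_of]
    · obtain ⟨b, hb⟩ := Set.mem_inv.1 hs
      rw [← FreeGroup.norm_inv_eq, ← hb, FreeGroup.norm_of]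
    · rw [Set.mem_singleton_iff.1 hs, FreeGroup.norm_one]; omega
  have htr : ∀ v : Fr, ∃ g : Fr, g • (1 : Fr) = v := fun v => ⟨v, mul_one v⟩
  have h0 : (0 : ℝ) ≤ (U.card : ℝ) ^ p := by positivity
  refine ⟨(U.card : ℝ) ^ p + 2, by linarith, fun r0 => ⟨
    { Q := Fr, V := Fr, X := Base.tree, o := 1, τ := 1, n := 1, π := MonoidHom.id Fr, U := U,
      a := (U.card : ℝ) ^ p + 1, hτ := one_pos, hn := odd_one, good := base_good, htr := htr,
      hU := hU, gen := hgen, ha1 := by linarith, haA := by linarith, rd := fun r _ => ?_,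
      inj := fun _ _ _ _ e => e }⟩⟩
  refine (hyp_rdq p hp base_good.inv base_good.four htr U hU _ hgen r).mono ?_
  have hx1 : (1 : ℝ) ≤ 1 + r := by linarith [Nat.cast_nonneg (α := ℝ) r]
  exact mul_le_mul (by linarith) (pow_le_pow_right₀ hx1 (by omega)) (by positivity) (by linarith)

/-- The limit of the tower. -/
theorem limit (D : ℕ) (A : ℝ) (r0 : ℕ) (s0 : Stage D A r0)
    (step : ∀ (s : Stage D A r0) (y : Fr),
      ∃ s' : Stage D A r0, (∀ g, s.π g = 1 → s'.π g = 1) ∧ IsOfFinOrder (s'.π y)) :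
    ∃ (G : Type) (_ : Group G) (π : Fr →* G), Function.Surjective π ∧ Monoid.IsTorsion G ∧
      (∀ r : ℕ, 1 ≤ r → RDq T0 π r (A * (1 + r) ^ D)) ∧
      ∀ g ∈ T0 ^ r0, ∀ h ∈ T0 ^ r0, π g = π h → g = h := by
  classical
  choose nx h1 h2 using step
  obtain ⟨e, he⟩ := exists_surjective_nat Fr
  obtain ⟨s, hs⟩ : ∃ s : ℕ → Stage D A r0, ∀ i, s (i + 1) = nx (s i) (e i) :=
    ⟨fun i => Nat.rec s0 (fun i t => nx t (e i)) i, fun i => rfl⟩
  have mono : ∀ i j, i ≤ j → ∀ g, (s i).π g = 1 → (s j).π g = 1 := by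
    intro i j hij g hg
    induction j, hij using Nat.le_induction with
    | base => exact hg
    | succ j _ ih => rw [hs]; exact h1 _ _ g ih
  let N : Subgroup Fr :=
    { carrier := {g | ∃ i, (s i).π g = 1}
      one_mem' := ⟨0, map_one _⟩
      mul_mem' := by
        rintro a b ⟨i, hi⟩ ⟨j, hj⟩
        refine ⟨max i j, ?_⟩
        rw [map_mul, mono i _ (le_max_left _ _) a hi, mono j _ (le_max_right _ _) b hj, one_mul]
      inv_mem' := by
        rintro a ⟨i, hi⟩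
        exact ⟨i, by rw [map_inv, hi, inv_one]⟩ }
  have : N.Normal := ⟨by
    rintro a ⟨i, hi⟩ g
    exact ⟨i, by rw [map_mul, map_mul, hi, map_inv, mul_one, mul_inv_cancel]⟩⟩
  have hN : ∀ a b : Fr, QuotientGroup.mk' N a = QuotientGroup.mk' N b ↔
      ∃ i, (s i).π (a⁻¹ * b) = 1 := fun a b => QuotientGroup.eq
  have hev : ∀ a b : Fr, ∀ᶠ i in atTop,
      ((s i).π a = (s i).π b ↔ QuotientGroup.mk' N a = QuotientGroup.mk' N b) := by
    intro a b
    by_cases h : ∃ i, (s i).π (a⁻¹ * b) = 1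
    · obtain ⟨i, hi⟩ := h
      refine eventually_atTop.2 ⟨i, fun j hj => ?_⟩
      have h3 := mono i j hj _ hi
      rw [map_mul, map_inv, inv_mul_eq_one] at h3
      exact iff_of_true h3 ((hN a b).2 ⟨i, hi⟩)
    · refine Eventually.of_forall fun j => iff_of_false (fun h3 => h ⟨j, ?_⟩)
        (fun h3 => h ((hN a b).1 h3))
      rw [map_mul, map_inv, h3, inv_mul_cancel]
  have hnq : ∀ f : MonoidAlgebra ℝ Fr, ∀ᶠ i in atTop,
      nq (s i).π f = nq (QuotientGroup.mk' N) f := by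
    intro f
    have h3 : ∀ᶠ i in atTop, ∀ a ∈ f.coeff.support, ∀ b ∈ f.coeff.support,
        ((s i).π a = (s i).π b ↔ QuotientGroup.mk' N a = QuotientGroup.mk' N b) :=
      (eventually_all_finset _).2 fun a _ => (eventually_all_finset _).2 fun b _ => hev a b
    exact h3.mono fun i hi => nq_congr _ _ f hi
  refine ⟨Fr ⧸ N, inferInstance, QuotientGroup.mk' N, QuotientGroup.mk'_surjective N, ?_, ?_, ?_⟩
  · intro g
    obtain ⟨y, rfl⟩ := QuotientGroup.mk'_surjective N g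
    obtain ⟨i, rfl⟩ := he y
    have h4 := h2 (s i) (e i)
    rw [← hs] at h4
    obtain ⟨k, hk, h3⟩ := isOfFinOrder_iff_pow_eq_one.1 h4
    refine isOfFinOrder_iff_pow_eq_one.2 ⟨k, hk, ?_⟩
    rw [← map_pow] at h3 ⊢
    exact (QuotientGroup.eq_one_iff _).2 ⟨i + 1, h3⟩
  · intro r hr f φ hf
    obtain ⟨i, e1, e2, e3⟩ := ((hnq (f * φ)).and ((hnq f).and (hnq φ))).exists
    rw [← e1, ← e2, ← e3]
    refine ((s i).rd r hr).mono ?_ f φ hf
    exact mul_le_mul_of_nonneg_right (s i).haA.le (by positivity)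
  · intro g hg h hh e1
    obtain ⟨i, hi⟩ := (hN g h).1 e1
    rw [map_mul, map_inv, inv_mul_eq_one] at hi
    exact (s i).inj g hg h hh hi

/-- positive words -/
def wd (l : List Bool) : Fr := FreeGroup.mk (l.map fun b => (b, true))

lemma wd_inj : Function.Injective wd := by
  have red : ∀ l : List Bool, FreeGroup.IsReduced (l.map fun b => (b, true)) := by
    intro l
    unfold FreeGroup.IsReduced
    rw [List.isChain_map]
    exact List.Pairwise.isChain (List.pairwise_of_forall fun _ _ _ => rfl)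
  intro l m h
  have h1 := congrArg FreeGroup.toWord h
  simp only [wd, FreeGroup.toWord_mk, (red _).reduce_eq] at h1
  exact List.map_injective_iff.2 (fun a b e => (Prod.mk.inj e).1) h1

lemma wd_mem (l : List Bool) : wd l ∈ T0 ^ l.length := by
  induction l with
  | nil => exact Set.mem_one.2 rfl
  | cons b l ih =>
    rw [List.length_cons, pow_succ']
    exact ⟨FreeGroup.of b, Or.inl (Or.inl ⟨b, rfl⟩), wd l, ih, rfl⟩

lemma lift_ball {G : Type} [Group G] (π : Fr →* G) (T : Set G) (hT : ∀ x ∈ T, ∃ s ∈ T0, π s = x)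
    (r : ℕ) : ∀ x ∈ T ^ r, ∃ g ∈ T0 ^ r, π g = x := by
  induction r with
  | zero =>
    intro x hx
    rw [pow_zero, Set.mem_one] at hx
    exact ⟨1, by rw [pow_zero]; exact Set.mem_one.2 rfl, by rw [hx, map_one]⟩
  | succ r ih =>
    intro x hx
    rw [pow_succ] at hx ⊢
    obtain ⟨a, ha, b, hb, rfl⟩ := hx
    obtain ⟨g, hg, rfl⟩ := ih a ha
    obtain ⟨s, hs, rfl⟩ := hT b hb
    exact ⟨g * s, Set.mul_mem_mul hg hs, map_mul π g s⟩

/-- From the free group to the quotient. -/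
lemma rd_down {G : Type} [Group G] (π : Fr →* G) (hπ : Function.Surjective π) (r : ℕ) (σ : ℝ)
    (h : RDq T0 π r σ) (f g : G →₀ ℝ) (hf : ∀ x ∈ f.support, ∃ y ∈ T0 ^ r, π y = x)
    (Z : Finset G) :
    ∑ x ∈ Z, (∑ y ∈ f.support, f y * g (y⁻¹ * x)) ^ 2 ≤
      σ * (∑ y ∈ f.support, f y ^ 2) * (∑ z ∈ g.support, g z ^ 2) := by
  classical
  have hsec : ∀ x : G, ∃ y, π y = x ∧ (x ∈ f.support → y ∈ T0 ^ r) := by
    intro x
    by_cases hx : x ∈ f.support
    · obtain ⟨y, h1, h2⟩ := hf x hx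
      exact ⟨y, h2, fun _ => h1⟩
    · obtain ⟨y, h1⟩ := hπ x
      exact ⟨y, h1, fun h2 => absurd h2 hx⟩
  choose sec hs1 hs2 using hsec
  have back : ∀ u : G →₀ ℝ, mapDomain π (mapDomain sec (ofCoeff u : MonoidAlgebra ℝ G)) =
      ofCoeff u := by
    intro u
    apply MonoidAlgebra.coeff_injective
    show Finsupp.mapDomain π (Finsupp.mapDomain sec u) = u
    rw [← Finsupp.mapDomain_comp]
    have : (π ∘ sec) = id := funext hs1
    rw [this, Finsupp.mapDomain_id]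
  have h1 := h (mapDomain sec (ofCoeff f)) (mapDomain sec (ofCoeff g)) (by
    intro y hy
    have h2 : y ∈ (Finsupp.mapDomain sec f).support := hy
    obtain ⟨x, hx, rfl⟩ := Finset.mem_image.1 (Finsupp.mapDomain_support h2)
    exact hs2 x hx)
  unfold nq at h1
  rw [mapDomain_mul, back, back, ip_self (ofCoeff f), ip_self (ofCoeff g)] at h1
  refine le_trans (le_of_eq ?_) ((sum_sq_le_ip _ Z).trans h1)
  refine Finset.sum_congr rfl fun x _ => ?_
  rw [coeff_mul_apply_left]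
  rfl

theorem main_rd : ∃ (G : Type) (_ : Group G) (π : Fr →* G) (A : ℝ) (D : ℕ), 0 < A ∧
    Function.Surjective π ∧ Infinite G ∧ Monoid.IsTorsion G ∧
    ∀ r : ℕ, 1 ≤ r → RDq T0 π r (A * (1 + r) ^ D) := by
  classical
  obtain ⟨p, hp⟩ : ∃ p : ℕ, p = 735 := ⟨_, rfl⟩
  obtain ⟨D, hD⟩ : ∃ D : ℕ, D = 2 * (1 + p + 3) + (1 + 3) := ⟨_, rfl⟩
  obtain ⟨A, hA, hb⟩ := stage_base p D hp hD
  obtain ⟨J0, hJ⟩ := exp_beats D 2 (2 * A) one_lt_two (by positivity)
  set r0 := J0 + 1 with hr0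
  have hbig : A * (1 + (r0 : ℝ)) ^ D < 2 ^ r0 := by
    have h1 := hJ (r0 + 1) (by omega)
    rw [pow_succ] at h1
    push_cast at h1
    rw [add_comm (r0 : ℝ) 1] at h1
    linarith
  obtain ⟨s0⟩ := hb r0
  obtain ⟨G, _, π, h1, h2, h3, h4⟩ := limit D A r0 s0 (stage_step p D hp hD A r0)
  refine ⟨G, inferInstance, π, A, D, hA, h1, ?_, h2, h3⟩
  by_contra hfin
  have : Finite G := not_infinite_iff_finite.1 hfin
  have := Fintype.ofFinite G
  let w : (Fin r0 → Bool) → Fr := fun v => wd (List.ofFn v)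
  have hw : ∀ v, w v ∈ T0 ^ r0 := fun v => by
    have := wd_mem (List.ofFn v)
    rwa [List.length_ofFn] at this
  set Z : Finset G := Finset.univ.image fun v => π (w v) with hZ
  have hZc : Z.card = 2 ^ r0 := by
    rw [hZ, Finset.card_image_of_injective _
      (fun u v e => List.ofFn_injective (wd_inj (h4 _ (hw u) _ (hw v) e)))]
    simp
  let f : G →₀ ℝ := Finsupp.equivFunOnFinite.symm fun x => if x ∈ Z then 1 else 0
  let g : G →₀ ℝ := Finsupp.equivFunOnFinite.symm fun _ => 1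
  have hf : ∀ x, f x = if x ∈ Z then 1 else 0 := fun x => rfl
  have hg : ∀ x, g x = 1 := fun x => rfl
  have hfs : f.support = Z := by
    ext x
    rw [Finsupp.mem_support_iff, hf]
    split_ifs with h <;> simp [h]
  have hgs : g.support = Finset.univ := by
    ext x
    simp [hg]
  have h5 := rd_down π h1 r0 _ (h3 r0 (by omega)) f g (by
    intro x hx
    rw [hfs] at hx
    obtain ⟨v, -, rfl⟩ := Finset.mem_image.1 hx
    exact ⟨w v, hw v, rfl⟩) Finset.univ
  have e1 : ∀ x : G, ∑ y ∈ f.support, f y * g (y⁻¹ * x) = Z.card := by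
    intro x
    rw [hfs, Finset.card_eq_sum_ones]
    push_cast
    exact Finset.sum_congr rfl fun y hy => by rw [hf, hg, if_pos hy, mul_one]
  have e2 : ∑ y ∈ f.support, f y ^ 2 = Z.card := by
    rw [hfs, Finset.card_eq_sum_ones]
    push_cast
    exact Finset.sum_congr rfl fun y hy => by rw [hf, if_pos hy, one_pow]
  have e3 : ∑ z ∈ g.support, g z ^ 2 = Fintype.card G := by
    rw [hgs]; simp [hg]
  rw [e2, e3] at h5
  simp only [e1, Finset.sum_const, Finset.card_univ, nsmul_eq_mul] at h5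
  rw [hZc] at h5
  push_cast at h5
  have c1 : (0 : ℝ) < Fintype.card G := by exact_mod_cast Fintype.card_pos
  have c2 : (0 : ℝ) < 2 ^ r0 := by positivity
  have c3 := mul_lt_mul_of_pos_right hbig (mul_pos c2 c1)
  nlinarith

end Pool.Agent.H782Z
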